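import Pool.Agent.H818R2.Ram.Erdos
import Pool.Agent.H526R2.Delta.Main

/-! Stepping up from pairs (two colours) to triples (four colours). -/

namespace Pool.Agent.Q294.StepFour

open Pool.Agent.H526R2.Delta

/-- A relation on the naturals obtained from a graph on `Fin m`. -/
def lift {m : ℕ} (G : SimpleGraph (Fin m)) (a b : ℕ) : Prop :=
  ∃ (ha : a < m) (hb : b < m), G.Adj ⟨a, ha⟩ ⟨b, hb⟩

theorem lift_symm {m : ℕ} {G : SimpleGraph (Fin m)} {a b : ℕ} (h : lift G a b) : lift G b a := by
  obtain ⟨ha, hb, h⟩ := h
  exact ⟨hb, ha, h.symm⟩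

open Classical in
/-- the colour of a triple -/
noncomputable def col {m : ℕ} (G : SimpleGraph (Fin m)) (x y z : ℕ) : Bool × Bool :=
  (decide (lift G (hd x y) (hd y z)), decide (hd x y < hd y z))

theorem mono_set {m s : ℕ} (G : SimpleGraph (Fin m)) (a : ℕ → ℕ)
    (ha : ∀ i j, i < j → j ≤ s → a i < a j) (hm : ∀ i, i ≤ s → a i < 2 ^ m) (b t : Bool)
    (hmono : ∀ i j l, i < j → j < l → l ≤ s → col G (a i) (a j) (a l) = (b, t)) :
    (∃ S : Finset (Fin m), G.IsNClique s S) ∨ (∃ S : Finset (Fin m), Gᶜ.IsNClique s S) := by
  classical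
  have hdel : ∀ i j l, i < j → j < l → l ≤ s →
      hd (a i) (a j) ≠ hd (a j) (a l) ∧
      hd (a i) (a l) = max (hd (a i) (a j)) (hd (a j) (a l)) := by
    intro i j l hij hjl hls
    exact isDelta_hd Set.univ _ trivial _ trivial _ trivial (ha i j hij (by omega)) (ha j l hjl hls)
  -- the consecutive values
  have hd_m : ∀ i, i < s → hd (a i) (a (i + 1)) < m := by
    intro i hi
    exact hd_lt (ha i (i + 1) (by omega) (by omega)) (hm _ (by omega))
  have key : ∀ i j, i < j → j < s →
      hd (a i) (a (i + 1)) ≠ hd (a j) (a (j + 1)) ∧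
      decide (lift G (hd (a i) (a (i + 1))) (hd (a j) (a (j + 1)))) = b := by
    cases t with
    | true =>
      have hlt : ∀ i j l, i < j → j < l → l ≤ s → hd (a i) (a j) < hd (a j) (a l) := by
        intro i j l hij hjl hls
        have := congrArg Prod.snd (hmono i j l hij hjl hls)
        simpa [col] using this
      have hval : ∀ i j, i < j → j < s → hd (a i) (a (j + 1)) = hd (a j) (a (j + 1)) := by
        intro i j hij hjs
        have h1 := (hdel i j (j + 1) hij (by omega) (by omega)).2
        have h2 := hlt i j (j + 1) hij (by omega) (by omega)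
        omega
      intro i j hij hjs
      have h3 := hmono i (i + 1) (j + 1) (by omega) (by omega) (by omega)
      have h4 : hd (a (i + 1)) (a (j + 1)) = hd (a j) (a (j + 1)) := by
        rcases Nat.eq_or_lt_of_le (Nat.succ_le_of_lt hij) with h | h
        · rw [show i + 1 = j from h]
        · exact hval (i + 1) j h hjs
      have h5 := hlt i (i + 1) (j + 1) (by omega) (by omega) (by omega)
      rw [h4] at h5
      refine ⟨h5.ne, ?_⟩
      have := congrArg Prod.fst h3
      simp only [col, h4] at this
      exact this
    | false =>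
      have hlt : ∀ i j l, i < j → j < l → l ≤ s → hd (a j) (a l) < hd (a i) (a j) := by
        intro i j l hij hjl hls
        have := congrArg Prod.snd (hmono i j l hij hjl hls)
        have h1 : ¬ hd (a i) (a j) < hd (a j) (a l) := by simpa [col] using this
        have h2 := (hdel i j l hij hjl hls).1
        omega
      have hval : ∀ i j, i + 1 < j → j ≤ s → hd (a i) (a j) = hd (a i) (a (i + 1)) := by
        intro i j hij hjs
        have h1 := (hdel i (i + 1) j (by omega) hij hjs).2
        have h2 := hlt i (i + 1) j (by omega) hij hjs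
        omega
      intro i j hij hjs
      have h3 := hmono i j (j + 1) (by omega) (by omega) (by omega)
      have h4 : hd (a i) (a j) = hd (a i) (a (i + 1)) := by
        rcases Nat.eq_or_lt_of_le (Nat.succ_le_of_lt hij) with h | h
        · rw [show i + 1 = j from h]
        · exact hval i j h (by omega)
      have h5 := hlt i j (j + 1) (by omega) (by omega) (by omega)
      rw [h4] at h5
      refine ⟨h5.ne', ?_⟩
      have := congrArg Prod.fst h3
      simp only [col, h4] at this
      exact this
  let d : Fin s → Fin m := fun i => ⟨hd (a i) (a (i + 1)), hd_m i i.2⟩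
  have hinj : Function.Injective d := by
    intro i j hij
    by_contra hne
    rcases lt_or_gt_of_ne hne with h | h
    · exact (key i j h j.2).1 (congrArg Fin.val hij)
    · exact (key j i h i.2).1 (congrArg Fin.val hij.symm)
  have hcard : (Finset.univ.image d).card = s := by
    rw [Finset.card_image_of_injective _ hinj]
    simp
  cases b with
  | true =>
    left
    refine ⟨Finset.univ.image d, ?_, hcard⟩
    have hadj : ∀ i j : Fin s, i < j → G.Adj (d i) (d j) := by
      intro i j hij
      have := (key i j hij j.2).2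
      rw [decide_eq_true_iff] at this
      obtain ⟨_, _, h⟩ := this
      exact h
    intro x hx y hy hxy
    simp only [Finset.coe_image, Finset.coe_univ, Set.image_univ, Set.mem_range] at hx hy
    obtain ⟨i, rfl⟩ := hx
    obtain ⟨j, rfl⟩ := hy
    rcases lt_trichotomy i j with h | h | h
    · exact hadj i j h
    · exact absurd (congrArg d h) hxy
    · exact (hadj j i h).symm
  | false =>
    right
    refine ⟨Finset.univ.image d, ?_, hcard⟩
    have hadj : ∀ i j : Fin s, i < j → ¬ G.Adj (d i) (d j) := by
      intro i j hij hadj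
      have := (key i j hij j.2).2
      rw [decide_eq_false_iff_not] at this
      exact this ⟨_, _, hadj⟩
    intro x hx y hy hxy
    simp only [Finset.coe_image, Finset.coe_univ, Set.image_univ, Set.mem_range] at hx hy
    obtain ⟨i, rfl⟩ := hx
    obtain ⟨j, rfl⟩ := hy
    rw [SimpleGraph.compl_adj]
    refine ⟨hxy, ?_⟩
    rcases lt_trichotomy i j with h | h | h
    · exact hadj i j h
    · exact absurd (congrArg d h) hxy
    · exact fun h' => hadj j i h h'.symm

/-- With four colours the triples of `2 ^ m` points can be coloured without a monochromatic set of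
`s + 1` points, when `m < R(s, s)`. -/
theorem exists_col {s m : ℕ} (hm : m < Pool.Agent.H818R2.Ram.R s s) :
    ∃ c : ℕ → ℕ → ℕ → Bool × Bool, ∀ S : Finset ℕ, S.card = s + 1 → (∀ x ∈ S, x < 2 ^ m) →
      ¬ ∃ v, ∀ x ∈ S, ∀ y ∈ S, ∀ z ∈ S, x < y → y < z → c x y z = v := by
  classical
  have hne : ∃ G : SimpleGraph (Fin m), ¬ ((∃ S : Finset (Fin m), G.IsNClique s S) ∨
      (∃ S : Finset (Fin m), Gᶜ.IsNClique s S)) := by
    by_contra hcon
    push Not at hcon
    have : Pool.Agent.H818R2.Ram.Arrows m s s := fun G => by
      by_contra h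
      exact (by
        have := hcon G
        push Not at h
        rcases this with ⟨S, hS⟩ | ⟨S, hS⟩
        · exact h.1 S hS
        · exact h.2 S hS)
    exact absurd (Pool.Agent.H818R2.Ram.R_le this) (by omega)
  obtain ⟨G, hG⟩ := hne
  refine ⟨col G, ?_⟩
  rintro S hS hSm ⟨⟨b, t⟩, hv⟩
  apply hG
  let e := S.orderEmbOfFin hS
  let a : ℕ → ℕ := fun i => if h : i < s + 1 then e ⟨i, h⟩ else 0
  have hmem : ∀ i, i ≤ s → a i ∈ S := by
    intro i hi
    have h : i < s + 1 := by omega
    simp only [a, h, dif_pos]
    exact S.orderEmbOfFin_mem hS _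
  have hlt : ∀ i j, i < j → j ≤ s → a i < a j := by
    intro i j hij hj
    have h1 : i < s + 1 := by omega
    have h2 : j < s + 1 := by omega
    simp only [a, h1, h2, dif_pos]
    exact e.lt_iff_lt.2 hij
  exact mono_set G a hlt (fun i hi => hSm _ (hmem i hi)) b t
    (fun i j l hij hjl hls => hv _ (hmem i (by omega)) _ (hmem j (by omega)) _ (hmem l hls)
      (hlt i j hij (by omega)) (hlt j l hjl hls))

end Pool.Agent.Q294.StepFour
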